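import Pool.Agent.W809.CI.Stm

set_option autoImplicit false

/-! The stages: Lipschitz bound. -/

open Set Filter Topology

namespace Pool.Agent.W351.CI

open Pool.Agent.W809.CI

theorem inv_sh (hP : S_PT) (hC : S_CC) (p : ℕ) (R L : ℝ) (a : ℤ) (x : ℝ → Pt)
    (h : Inv p R L x) : Inv p R L (sh a x) := by
  obtain ⟨-, -, hbb, -, -, -, -, hsr, -, -, -⟩ := hP
  obtain ⟨-, hCb, -, -⟩ := hC
  obtain ⟨h1, h2, h3, h4⟩ := h
  refine ⟨?_, ?_, ?_, ?_⟩
  · intro t
    unfold sh
    have e1 : t + (p : ℝ) + (a : ℝ) = (t + a) + p := by ring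
    rw [e1, h1 (t + a), hbb, hbb, add_comm]
  · intro t
    unfold sh
    rw [(hsr (-a) (x (t + a))).1]
    exact h2 _
  · intro t
    unfold sh
    rw [(hsr (-a) (x (t + a))).2]
    have h5 := h3 (t + a)
    have e : (x (t + a)).r + ((-a : ℤ) : ℝ) - t = (x (t + a)).r - (t + a) := by
      push_cast
      ring
    rw [e]
    exact h5
  · intro t t'
    unfold sh
    rw [hCb, hCb, ← smul_sub, norm_smul]
    have e1 : ‖((-1 : ℝ) ^ (-a))‖ = 1 := by
      rw [norm_zpow]
      simp
    rw [e1, one_mul]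
    have h5 := h4 (t + a) (t' + a)
    have e2 : t + a - (t' + a) = t - t' := by ring
    rwa [e2] at h5

theorem inv_mono (p : ℕ) (R R' L L' : ℝ) (x : ℝ → Pt) (hR0 : 0 ≤ R) (hR : R ≤ R') (hL : L ≤ L')
    (h : Inv p R L x) : Inv p R' L' x := by
  obtain ⟨h1, h2, h3, h4⟩ := h
  refine ⟨h1, fun t => (h2 t).trans ?_, fun t => (h3 t).trans hR,
    fun t t' => (h4 t t').trans (mul_le_mul_of_nonneg_right hL (abs_nonneg _))⟩
  exact Real.log_le_log (by positivity) (by linarith)

theorem stg2 : S_PT → S_CC → S_HINV → S_HSTAR → S_STG2 := by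
  intro hP hC hH hS p N W M lam a k hp hW hkN hN hWN hM
  have hp' : (0 : ℝ) < p := by exact_mod_cast hp
  have hN' : (1 : ℝ) ≤ N := by exact_mod_cast hN
  have h4W : 4 * W ≤ p := by nlinarith
  have hM0 : 0 ≤ M := by
    refine le_trans ?_ hM
    have : 0 ≤ Real.log (1 + 3 * p * (N + 1) + 2 * p) := by
      apply Real.log_nonneg
      nlinarith
    positivity
  obtain ⟨u, hu⟩ : ∃ u : ℝ, u = 1 - 1 / (2 * N) := ⟨_, rfl⟩
  have hN2 : 1 / (2 * (N : ℝ)) ≤ 1 / 2 :=
    one_div_le_one_div_of_le (by norm_num) (by linarith)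
  have hN2' : 0 < 1 / (2 * (N : ℝ)) := by positivity
  have hu0 : 0 < u := by rw [hu]; linarith
  have hu1 : u ≤ 1 := by rw [hu]; linarith
  have hui : 1 ≤ u⁻¹ := (one_le_inv₀ hu0).2 hu1
  have hup : p / (p - 2 * W) ≤ u⁻¹ := by
    have h1 : 0 < (p : ℝ) - 2 * W := by linarith
    rw [inv_eq_one_div, div_le_div_iff₀ h1 hu0, one_mul, hu]
    have h2 : (p : ℝ) * (1 - 1 / (2 * N)) = p - p / (2 * N) := by ring
    rw [h2]
    have h3 : 2 * W ≤ p / (2 * N) := by
      rw [le_div_iff₀ (by positivity)]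
      linarith
    linarith
  have hlog : ∀ j : ℕ, j ≤ N + 1 →
      4 * (2 * Real.log (1 + 3 * p * j + 2 * p) + 9) / W ≤ M := by
    intro j hj
    refine le_trans ?_ hM
    have hj' : (j : ℝ) ≤ N + 1 := by exact_mod_cast hj
    have h1 : Real.log (1 + 3 * p * j + 2 * p) ≤ Real.log (1 + 3 * p * (N + 1) + 2 * p) := by
      refine Real.log_le_log (by positivity) ?_
      nlinarith
    refine div_le_div_of_nonneg_right ?_ hW.le
    linarith
  have key : ∀ j : ℕ, j ≤ N → Inv p (3 * p * (j + 1)) (M * u⁻¹ ^ j) (stage p W lam a j) := by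
    intro j
    induction j with
    | zero =>
      intro _
      have h1 := hS p W (fun _ => b0) hp hW h4W
      refine inv_mono p _ _ _ _ _ (by positivity) (by simp) ?_ h1
      rw [pow_zero, mul_one]
      have h2 := hlog 0 (by omega)
      simpa using h2
    | succ j ih =>
      intro hj
      have h1 := ih (by omega)
      have h2 := inv_sh hP hC p _ _ (-(a j)) _ h1
      have h3 := hH p W (3 * p * (j + 1)) (M * u⁻¹ ^ j) (lam j) _ hp hW h4W (by positivity)
        (by positivity) h2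
      have h4 := inv_sh hP hC p _ _ (a j) _ h3
      refine inv_mono p _ _ _ _ _ (by positivity) ?_ ?_ h4
      · push_cast
        linarith
      · have hM1 : M ≤ M * u⁻¹ ^ (j + 1) :=
          le_mul_of_one_le_right hM0 (one_le_pow₀ hui)
        refine max_le ?_ ?_
        · refine le_trans ?_ hM1
          have h5 := hlog (j + 1) (by omega)
          push_cast at h5
          exact h5
        · calc M * u⁻¹ ^ j * p / (p - 2 * W) = M * u⁻¹ ^ j * (p / (p - 2 * W)) := by ring
            _ ≤ M * u⁻¹ ^ j * u⁻¹ := mul_le_mul_of_nonneg_left hup (by positivity)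
            _ = M * u⁻¹ ^ (j + 1) := by ring
  have hpow : u⁻¹ ^ k ≤ 2 := by
    refine le_trans (pow_le_pow_right₀ hui hkN) ?_
    rw [inv_pow]
    have h1 : (1 / 2 : ℝ) ≤ u ^ N := by
      have h2 := one_add_mul_le_pow (a := -(1 / (2 * (N : ℝ)))) (by linarith) N
      have h3 : 1 + (N : ℝ) * -(1 / (2 * N)) = 1 / 2 := by
        field_simp
        ring
      rw [h3] at h2
      rw [hu, sub_eq_add_neg]
      exact h2
    have h4 : (u ^ N)⁻¹ ≤ (1 / 2 : ℝ)⁻¹ := inv_anti₀ (by norm_num) h1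
    refine h4.trans (by norm_num)
  intro t t'
  refine ((key k hkN).2.2.2 t t').trans ?_
  refine mul_le_mul_of_nonneg_right ?_ (abs_nonneg _)
  nlinarith

end Pool.Agent.W351.CI
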